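import Pool.Agent.helper96.LK.SpecR

/-!
# Project lk, module QP: the data exist
-/

open PowerSeries Filter Topology Set

noncomputable section

namespace Pool.Agent.LK

open Pool.Agent.helper59.LC Pool.Agent.helper59.LD

theorem QP_cP (e : ℂ) : cP (gq e) = gq ((starRingEnd ℂ) e) := gq_map (starRingEnd ℂ) e

theorem QP (hLOW : LOW_stmt) (hCSW : CSW_stmt) (hUV : UV_stmt) (hVD : VD_stmt) (hZ2 : Z2_stmt) :
    QP_stmt := by
  intro a dl ha hdl
  have ha2 : 2 ≤ a := by omega
  obtain ⟨e, he, t, hind⟩ := hZ2 a dl ha hdl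
  have hU := hUV ℂ a e ((starRingEnd ℂ) e) ha2
  have hV := hVD a e ((starRingEnd ℂ) e) ha2 he
  obtain ⟨hc1, hc2, hc3, hPP, hc5⟩ := hCSW.1 a
  have hl0 : lamS dl (t : ℂ) ≠ 0 := by
    intro h
    have := lamS_const dl (t : ℂ)
    rw [h, map_zero] at this
    exact zero_ne_one this
  have hlamd : (lamS dl (t : ℂ)).totalDegree = dl :=
    le_antisymm (td_lamS dl _) (dg_lamS_deg dl t)
  have hV0 : VV a e ((starRingEnd ℂ) e) ≠ 0 := by
    intro h
    rw [h, MvPolynomial.totalDegree_zero] at hV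
    omega
  have hd0 : den ℂ a ≠ 0 := by
    intro h
    rw [h, map_zero] at hc3
    exact zero_ne_one hc3
  have hlV : (lamS dl (t : ℂ) * VV a e ((starRingEnd ℂ) e)).totalDegree = dl + (2 * a + 3) := by
    rw [MvPolynomial.totalDegree_mul_of_isDomain hl0 hV0, hlamd, hV]
  have hUU : lamS dl (t : ℂ) * UU (pT ℂ a) (gT e ((starRingEnd ℂ) e)) =
      den ℂ a * (lamS dl (t : ℂ) * VV a e ((starRingEnd ℂ) e)) := by
    rw [hU]
    ring
  have hN : (lamS dl (t : ℂ) * UU (pT ℂ a) (gT e ((starRingEnd ℂ) e))).totalDegree =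
      (den ℂ a).totalDegree + (dl + (2 * a + 3)) := by
    rw [hUU, MvPolynomial.totalDegree_mul_of_isDomain hd0 (mul_ne_zero hl0 hV0), hlV]
  have hgr : ∀ i, cP (gT e ((starRingEnd ℂ) e) i) = gT e ((starRingEnd ℂ) e) (i + 1) := by
    intro i
    have e0 : (0 : Fin 2) + 1 = 1 := rfl
    have e1 : (1 : Fin 2) + 1 = 0 := rfl
    fin_cases i
    · show cP (gq e) = gq ((starRingEnd ℂ) e)
      exact QP_cP e
    · show cP (gq ((starRingEnd ℂ) e)) = gq e
      rw [QP_cP, Complex.conj_conj]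
  let R : RPt (lamS dl (t : ℂ) * UU (pT ℂ a) (gT e ((starRingEnd ℂ) e))).totalDegree 0 :=
    { p := pT ℂ a, g := gT e ((starRingEnd ℂ) e), lam := lamS dl (t : ℂ),
      low := (hLOW ℂ a ha2).1, preal := hc1, greal := hgr, lreal := lamS_csw dl t,
      lconst := lamS_const dl _, deg := rfl,
      cdeg := fun i j => (td_hF hPP (td_lamS dl _) (hPP i) i j).mono (by rw [hN]; omega),
      h := fun i => i.elim0, hdeg := fun i => i.elim0,
      ind := linearIndependent_empty_type }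
  have hcard : Fintype.card (Ix a dl) =
      (UA (a : ℤ) (dl : ℤ)).card + (UB (a : ℤ) (dl : ℤ)).card + 1 := by
    rw [Fintype.card_option, Fintype.card_sum, Fintype.card_coe, Fintype.card_coe]
  let eqv : Fin ((UA (a : ℤ) (dl : ℤ)).card + (UB (a : ℤ) (dl : ℤ)).card + 1) ≃ Ix a dl :=
    (Fintype.equivFinOfCardEq hcard).symm
  refine ⟨{ N := _, R := R, dn := den ℂ a,
            W := MvPolynomial.C Complex.I * (lamS dl (t : ℂ) * VV a e ((starRingEnd ℂ) e)),
            dreal := hc2, dconst := hc3, hW := ?_, deg := ?_,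
            h := fun i => hh ℂ a dl (eqv i), hdeg := ?_, ind := ?_ }⟩
  · show den ℂ a * (MvPolynomial.C Complex.I * (lamS dl (t : ℂ) * VV a e ((starRingEnd ℂ) e))) =
      MvPolynomial.C Complex.I * (lamS dl (t : ℂ) * UU (pT ℂ a) (gT e ((starRingEnd ℂ) e)))
    rw [hUU]
    ring
  · have hI : (MvPolynomial.C Complex.I : MvPolynomial (Fin 2) ℂ) ≠ 0 := by
      rw [Ne, MvPolynomial.C_eq_zero]
      exact Complex.I_ne_zero
    rw [MvPolynomial.totalDegree_mul_of_isDomain hI (mul_ne_zero hl0 hV0), hlV,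
      MvPolynomial.totalDegree_C]
    omega
  · intro i j
    exact hCSW.2 a dl ha hdl (eqv i) j
  · exact hind.comp eqv eqv.injective

end Pool.Agent.LK
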