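import Pool.Agent.helper96.LK.SpecM

/-!
# Project lk, module WB: the values at the base point
-/

open PowerSeries Filter

noncomputable section

namespace Pool.Agent.LK

open Pool.Agent.helper59.LC Pool.Agent.helper59.LD

theorem WB_m {a : ℕ} (ha : 11 ≤ a) : (((a ^ 2 - 1 : ℕ) : ℤ) : ℚ) = (a : ℚ) ^ 2 - 1 := by
  have h : 1 ≤ a ^ 2 := Nat.one_le_pow _ _ (by omega)
  push_cast [Nat.cast_sub h]
  ring

theorem WB_m' {a : ℕ} (ha : 11 ≤ a) : ((a ^ 2 - 1 : ℕ) : ℚ) = (a : ℚ) ^ 2 - 1 := by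
  have h : 1 ≤ a ^ 2 := Nat.one_le_pow _ _ (by omega)
  push_cast [Nat.cast_sub h]
  ring

/-- the values of the first series -/
theorem WB_b (hBAS : BAS_stmt) {a : ℕ} (ha : 11 ≤ a) (r : Rt (a ^ 2 - 1) (0 : ℂ)) (Q : Pt)
    (s : ℤ) (j : ℕ) : coeff j (bs r (ka a Q + s * ((a ^ 2 - 1 : ℕ) : ℤ))) =
      (((-2) ^ j * ch (xx a Q - s / 2) j : ℚ) : ℂ) := by
  have h1 : 1 ≤ a ^ 2 - 1 := by
    have : 11 ^ 2 ≤ a ^ 2 := Nat.pow_le_pow_left ha 2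
    omega
  rw [(hBAS (a ^ 2 - 1) h1).1 r _ j]
  congr 3
  have hne : ((a : ℚ) ^ 2 - 1) ≠ 0 := by
    have := den_ne (a := (a : ℤ)) (by omega)
    exact_mod_cast this
  rw [xx, mu, ka]
  push_cast [WB_m' ha]
  field_simp
  ring

theorem WB_b' (hBAS : BAS_stmt) {a : ℕ} (ha : 11 ≤ a) (r : Rt (a ^ 2 - 1) (1 : ℂ)) (Q : Pt)
    (s : ℤ) (j : ℕ) : coeff j (bs r (kb a Q + s * ((a ^ 2 - 1 : ℕ) : ℤ))) =
      (((-1) ^ j * ch (yy a Q - s) j : ℚ) : ℂ) := by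
  have h1 : 1 ≤ a ^ 2 - 1 := by
    have : 11 ^ 2 ≤ a ^ 2 := Nat.pow_le_pow_left ha 2
    omega
  rw [(hBAS (a ^ 2 - 1) h1).2 r _ j]
  congr 3
  have hne : ((a : ℚ) ^ 2 - 1) ≠ 0 := by
    have := den_ne (a := (a : ℤ)) (by omega)
    exact_mod_cast this
  rw [yy, nu, kb]
  push_cast [WB_m' ha]
  field_simp
  ring

theorem WB_ka {a : ℕ} (ha : 11 ≤ a) (Q : Pt) :
    ((ka a Q : ℤ) : ℚ) = ((a ^ 2 - 1 : ℕ) : ℚ) * mu a Q := by
  have hne : ((a : ℚ) ^ 2 - 1) ≠ 0 := by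
    have := den_ne (a := (a : ℤ)) (by omega)
    exact_mod_cast this
  rw [mu, ka]
  push_cast [WB_m' ha]
  field_simp

theorem WB_kb {a : ℕ} (ha : 11 ≤ a) (Q : Pt) :
    ((kb a Q : ℤ) : ℚ) = ((a ^ 2 - 1 : ℕ) : ℚ) * nu a Q := by
  have hne : ((a : ℚ) ^ 2 - 1) ≠ 0 := by
    have := den_ne (a := (a : ℤ)) (by omega)
    exact_mod_cast this
  rw [nu, kb]
  push_cast [WB_m' ha]
  field_simp

theorem WB_z (hBI : BI_stmt) {a : ℕ} (ha : 11 ≤ a) (r : Rt (a ^ 2 - 1) (0 : ℂ)) (Q : Pt) (k : ℕ) :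
    ((2 - mu a Q : ℚ) : ℂ) * coeff k (r.z (ka a Q)) =
      -((k : ℂ) + 1) * coeff (k + 1) (bs r (ka a Q)) := by
  have h1 : 1 ≤ a ^ 2 - 1 := by
    have : 11 ^ 2 ≤ a ^ 2 := Nat.pow_le_pow_left ha 2
    omega
  have h2 := (hBI ℂ (a ^ 2 - 1) 0 r h1 (ka a Q) k).1
  have h3 : (((2 * ((a ^ 2 - 1 : ℕ) : ℤ) - ka a Q : ℤ)) : ℂ) =
      ((a ^ 2 - 1 : ℕ) : ℂ) * ((2 - mu a Q : ℚ) : ℂ) := by
    have h4 : (((2 * ((a ^ 2 - 1 : ℕ) : ℤ) - ka a Q : ℤ)) : ℚ) =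
        ((a ^ 2 - 1 : ℕ) : ℚ) * (2 - mu a Q) := by
      rw [mul_sub, ← WB_ka ha Q]
      push_cast
      ring
    have h5 := congrArg (fun q : ℚ => (q : ℂ)) h4
    simp only [Rat.cast_mul, Rat.cast_natCast, Rat.cast_intCast] at h5
    exact h5
  have h6 : ((a ^ 2 - 1 : ℕ) : ℂ) ≠ 0 := by
    rw [Nat.cast_ne_zero]
    omega
  apply mul_left_cancel₀ h6
  rw [h3] at h2
  linear_combination h2

theorem WB_z' (hBI : BI_stmt) {a : ℕ} (ha : 11 ≤ a) (r : Rt (a ^ 2 - 1) (1 : ℂ)) (Q : Pt) (k : ℕ) :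
    ((1 - nu a Q : ℚ) : ℂ) * coeff k (r.z (kb a Q)) =
      -((k : ℂ) + 1) * coeff (k + 1) (bs r (kb a Q)) := by
  have h1 : 1 ≤ a ^ 2 - 1 := by
    have : 11 ^ 2 ≤ a ^ 2 := Nat.pow_le_pow_left ha 2
    omega
  have h2 := (hBI ℂ (a ^ 2 - 1) 1 r h1 (kb a Q) k).2
  have h3 : (((((a ^ 2 - 1 : ℕ) : ℤ) - kb a Q : ℤ)) : ℂ) =
      ((a ^ 2 - 1 : ℕ) : ℂ) * ((1 - nu a Q : ℚ) : ℂ) := by
    have h4 : (((((a ^ 2 - 1 : ℕ) : ℤ) - kb a Q : ℤ)) : ℚ) =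
        ((a ^ 2 - 1 : ℕ) : ℚ) * (1 - nu a Q) := by
      rw [mul_sub, ← WB_kb ha Q]
      push_cast
      ring
    have h5 := congrArg (fun q : ℚ => (q : ℂ)) h4
    simp only [Rat.cast_mul, Rat.cast_natCast, Rat.cast_intCast] at h5
    exact h5
  have h6 : ((a ^ 2 - 1 : ℕ) : ℂ) ≠ 0 := by
    rw [Nat.cast_ne_zero]
    omega
  apply mul_left_cancel₀ h6
  rw [h3, sub_self, mul_zero, mul_zero, zero_mul] at h2
  linear_combination h2

theorem WB (hBI : BI_stmt) (hBAS : BAS_stmt) (hNI : NI_stmt) (hPTS : PTS_stmt) : WB_stmt := by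
  intro a dl ha hdl r r' i k
  have haZ : (11 : ℤ) ≤ a := by exact_mod_cast ha
  have hd0 : (0 : ℤ) ≤ dl := by positivity
  have hd1 : (dl : ℤ) ≤ 1 := by exact_mod_cast hdl
  have hbb : ∀ (Q : Pt) (s t : ℤ) (j : ℕ),
      coeff j (bs r (ka a Q + s * ((a ^ 2 - 1 : ℕ) : ℤ))) *
        coeff j (bs r' (kb a Q + t * ((a ^ 2 - 1 : ℕ) : ℤ))) =
      ((2 ^ j * (ch (xx a Q - s / 2) j * ch (yy a Q - t) j) : ℚ) : ℂ) := by
    intro Q s t j
    rw [WB_b hBAS ha r Q s j, WB_b' hBAS ha r' Q t j, ← Rat.cast_mul]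
    congr 1
    have : ((-2 : ℚ)) ^ j * (-1) ^ j = 2 ^ j := by
      rw [← mul_pow]
      norm_num
    rw [← this]
    ring
  rcases i with _ | u | u
  · show (if k = 0 then (a : ℂ) * coeff 1 (bs r 0) + coeff 1 (bs r' 0) else 0) =
      if k = 0 then -(2 * (a : ℂ) + 1) else 0
    have h0 : coeff 1 (bs r 0) = -2 := by
      have h1 : 1 ≤ a ^ 2 - 1 := by
        have : 11 ^ 2 ≤ a ^ 2 := Nat.pow_le_pow_left ha 2
        omega
      rw [(hBAS (a ^ 2 - 1) h1).1 r 0 1]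
      simp [ch]
    have h0' : coeff 1 (bs r' 0) = -1 := by
      have h1 : 1 ≤ a ^ 2 - 1 := by
        have : 11 ^ 2 ≤ a ^ 2 := Nat.pow_le_pow_left ha 2
        omega
      rw [(hBAS (a ^ 2 - 1) h1).2 r' 0 1]
      simp [ch]
    rw [h0, h0']
    split_ifs
    · ring
    · rfl
  · show wA a r r' (shift a u.1.1 u.1.2) k = ((-(2 ^ (k + 1) * cQ a (shift a u.1.1 u.1.2)) *
      (((k : ℚ) + 1) * sg a (shift a u.1.1 u.1.2) (k + 1)) : ℚ) : ℂ)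
    have hB := (mem_UA.1 u.2).1
    obtain ⟨hx, hy⟩ := hNI a dl haZ hd0 hd1 u.1.1 hB u.1.2 0
    obtain ⟨p1, p2, -, -⟩ := (hPTS a dl haZ hd0 hd1).1 u.1 u.2
    set Q := shift (a : ℤ) u.1.1 u.1.2 with hQ
    have e1 : (2 - mu a Q : ℚ) ≠ 0 := by
      intro h
      apply hx
      rw [xx, Int.cast_zero]
      linarith
    have e2 : (1 - nu a Q : ℚ) ≠ 0 := by
      intro h
      apply hy
      rw [yy, Int.cast_zero]
      linarith
    obtain ⟨q1, q2⟩ := pt_eq (a := (a : ℤ)) (by omega) Q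
    have f1 : ((2 - mu a Q : ℚ) : ℂ) ≠ 0 := by exact_mod_cast e1
    have f2 : ((1 - nu a Q : ℚ) : ℂ) ≠ 0 := by exact_mod_cast e2
    have z1 := WB_z hBI ha r Q k
    have z2 := WB_z' hBI ha r' Q k
    have hb := hbb Q 0 0 (k + 1)
    rw [zero_mul, add_zero, add_zero] at hb
    have hsg : (2 ^ (k + 1) * (ch (xx a Q - (0 : ℤ) / 2) (k + 1) * ch (yy a Q - (0 : ℤ)) (k + 1)) : ℚ) =
        2 ^ (k + 1) * sg a Q (k + 1) := by
      rw [sg]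
      simp
    rw [hsg] at hb
    set b := coeff (k + 1) (bs r (ka a Q)) with hbdef
    set b' := coeff (k + 1) (bs r' (kb a Q)) with hbdef'
    set z := coeff k (r.z (ka a Q)) with hzdef
    set z' := coeff k (r'.z (kb a Q)) with hzdef'
    have g1 : z = -((k : ℂ) + 1) * b / ((2 - mu a Q : ℚ) : ℂ) := by
      rw [eq_div_iff f1, mul_comm]
      exact z1
    have g2 : z' = -((k : ℂ) + 1) * b' / ((1 - nu a Q : ℚ) : ℂ) := by
      rw [eq_div_iff f2, mul_comm]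
      exact z2
    unfold wA cQ
    rw [← hbdef, ← hbdef', ← hzdef, ← hzdef', g1, g2]
    split_ifs with c1 c2
    · have : ((-(2 ^ (k + 1) * (1 / (1 - nu a Q))) * (((k : ℚ) + 1) * sg a Q (k + 1)) : ℚ) : ℂ) =
          -(((k : ℂ) + 1) * ((2 ^ (k + 1) * sg a Q (k + 1) : ℚ) : ℂ) / ((1 - nu a Q : ℚ) : ℂ)) := by
        push_cast
        ring
      rw [this, ← hb]
      ring
    · have hQ1 : Q.1 = 0 := by omega
      have hnum : (a : ℚ) * (2 - mu a Q) + (1 - nu a Q) = 2 * a + 2 := by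
        rw [hQ1] at q1
        push_cast at q1
        linarith
      have hnum' : (a : ℂ) * ((2 - mu a Q : ℚ) : ℂ) + ((1 - nu a Q : ℚ) : ℂ) = 2 * a + 2 := by
        exact_mod_cast congrArg (fun q : ℚ => (q : ℂ)) hnum
      have : ((-(2 ^ (k + 1) * ((2 * a + 2) / ((1 - nu a Q) * (2 - mu a Q)))) *
          (((k : ℚ) + 1) * sg a Q (k + 1)) : ℚ) : ℂ) =
          -(((k : ℂ) + 1) * ((2 ^ (k + 1) * sg a Q (k + 1) : ℚ) : ℂ) * (2 * a + 2) /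
            (((1 - nu a Q : ℚ) : ℂ) * ((2 - mu a Q : ℚ) : ℂ))) := by
        push_cast
        ring
      rw [this, ← hb, ← hnum']
      field_simp
      ring
    · have hQ2 : Q.2 = 0 := by omega
      have hnum : (2 - mu a Q) + (a : ℚ) * (1 - nu a Q) = a + 3 := by
        rw [hQ2] at q2
        push_cast at q2
        linarith
      have hnum' : ((2 - mu a Q : ℚ) : ℂ) + (a : ℂ) * ((1 - nu a Q : ℚ) : ℂ) = a + 3 := by
        exact_mod_cast congrArg (fun q : ℚ => (q : ℂ)) hnum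
      have : ((-(2 ^ (k + 1) * ((a + 3) / ((1 - nu a Q) * (2 - mu a Q)))) *
          (((k : ℚ) + 1) * sg a Q (k + 1)) : ℚ) : ℂ) =
          -(((k : ℂ) + 1) * ((2 ^ (k + 1) * sg a Q (k + 1) : ℚ) : ℂ) * (a + 3) /
            (((1 - nu a Q : ℚ) : ℂ) * ((2 - mu a Q : ℚ) : ℂ))) := by
        push_cast
        ring
      rw [this, ← hb, ← hnum']
      field_simp
      ring
  · show wB a r r' (shift a u.1.1 u.1.2) k =
      ((2 ^ (k + 1) * (sg a (shift a u.1.1 (u.1.2.1, u.1.2.2 + 2)) (k + 1) -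
      sg a (shift a u.1.1 (u.1.2.1 + 1, u.1.2.2)) (k + 1)) : ℚ) : ℂ)
    set Q := shift (a : ℤ) u.1.1 u.1.2 with hQ
    have h1 := hbb Q 0 2 (k + 1)
    have h2 := hbb Q 1 0 (k + 1)
    have s1 : sg a (shift a u.1.1 (u.1.2.1, u.1.2.2 + 2)) (k + 1) =
        ch (xx a Q - ((0 : ℤ) : ℚ) / 2) (k + 1) * ch (yy a Q - ((2 : ℤ) : ℚ)) (k + 1) := by
      have e : shift (a : ℤ) u.1.1 (u.1.2.1, u.1.2.2 + 2) = shift (a : ℤ) Q (0, 2) := by
        rw [hQ, shift_shift]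
        congr 1
        ext <;> simp
      rw [e, sg, xx_shift (by omega), yy_shift (by omega)]
    have s2 : sg a (shift a u.1.1 (u.1.2.1 + 1, u.1.2.2)) (k + 1) =
        ch (xx a Q - ((1 : ℤ) : ℚ) / 2) (k + 1) * ch (yy a Q - ((0 : ℤ) : ℚ)) (k + 1) := by
      have e : shift (a : ℤ) u.1.1 (u.1.2.1 + 1, u.1.2.2) = shift (a : ℤ) Q (1, 0) := by
        rw [hQ, shift_shift]
        congr 1
        ext <;> simp
      rw [e, sg, xx_shift (by omega), yy_shift (by omega)]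
    rw [s1, s2, mul_sub, Rat.cast_sub, ← h1, ← h2]
    unfold wB
    simp only [zero_mul, add_zero, one_mul]

end Pool.Agent.LK
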