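import Pool.Agent.helper96.LK.SpecM

/-!
# Project lk, module WM: the Melnikov values of the family
-/

open PowerSeries Filter

noncomputable section

namespace Pool.Agent.LK

open Pool.Agent.helper59.LC Pool.Agent.helper59.LD

section
variable {A : Type} [CommRing A] [Algebra ℚ A]

theorem WM_fx (h : MXY_stmt) {a : ℕ} {e e' : A} (ha : 2 ≤ a) (r : Rt (a ^ 2 - 1) e)
    (r' : Rt (a ^ 2 - 1) e') (Q : Pt) (h1 : 0 ≤ Q.1) (h2 : 1 ≤ Q.2) (k : ℕ) :
    MM (pT A a) (gT e e') 1 (fun t => den A a * fx A a Q.1.toNat (Q.2 - 1).toNat t) k =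
      a * (coeff (k + 1) (bs r (ka a Q)) * coeff k (r'.z (kb a Q))) +
        coeff k (r.z (ka a Q)) * coeff (k + 1) (bs r' (kb a Q)) := by
  have h3 := (h A a e e' ha r r' Q.1.toNat (Q.2 - 1).toNat k).1
  rw [Int.toNat_of_nonneg h1, Int.toNat_of_nonneg (show 0 ≤ Q.2 - 1 by omega)] at h3
  exact h3

theorem WM_fy (h : MXY_stmt) {a : ℕ} {e e' : A} (ha : 2 ≤ a) (r : Rt (a ^ 2 - 1) e)
    (r' : Rt (a ^ 2 - 1) e') (Q : Pt) (h1 : 1 ≤ Q.1) (h2 : 0 ≤ Q.2) (k : ℕ) :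
    MM (pT A a) (gT e e') 1 (fun t => den A a * fy A a (Q.1 - 1).toNat Q.2.toNat t) k =
      coeff (k + 1) (bs r (ka a Q)) * coeff k (r'.z (kb a Q)) +
        a * (coeff k (r.z (ka a Q)) * coeff (k + 1) (bs r' (kb a Q))) := by
  have h3 := (h A a e e' ha r r' (Q.1 - 1).toNat Q.2.toNat k).2
  rw [Int.toNat_of_nonneg h2, Int.toNat_of_nonneg (show 0 ≤ Q.1 - 1 by omega)] at h3
  exact h3

theorem WM_fc (h : MXY_stmt) {a : ℕ} {e e' : A} (ha : 2 ≤ a) (r : Rt (a ^ 2 - 1) e)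
    (r' : Rt (a ^ 2 - 1) e') (c1 c2 : ℚ) (Q : Pt) (h1 : 1 ≤ Q.1) (h2 : 1 ≤ Q.2) (k : ℕ) :
    MM (pT A a) (gT e e') 1 (fun t => den A a * fc A a c1 c2 Q t) k =
      qc A (a * c1 + c2) * (coeff (k + 1) (bs r (ka a Q)) * coeff k (r'.z (kb a Q))) +
        qc A (c1 + a * c2) * (coeff k (r.z (ka a Q)) * coeff (k + 1) (bs r' (kb a Q))) := by
  have h3 : (fun t => den A a * fc A a c1 c2 Q t) =
      (fun t => MvPolynomial.C (qc A c1) * (den A a * fx A a Q.1.toNat (Q.2 - 1).toNat t) +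
        MvPolynomial.C (qc A c2) * (den A a * fy A a (Q.1 - 1).toNat Q.2.toNat t)) := by
    funext t
    rw [fc]
    ring
  rw [h3, MM_add, MM_smul, MM_smul, WM_fx h ha r r' Q (by omega) h2, WM_fy h ha r r' Q h1 (by omega),
    qc_add, qc_add, qc_mul, qc_mul, qc_nat]
  ring

theorem WM_m {a : ℕ} (ha : 11 ≤ a) : ((a ^ 2 - 1 : ℕ) : ℚ) = (a : ℚ) ^ 2 - 1 := by
  have h : 1 ≤ a ^ 2 := Nat.one_le_pow _ _ (by omega)
  push_cast [Nat.cast_sub h]
  ring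

theorem WM_ne {a : ℕ} (ha : 11 ≤ a) : ((a : ℚ) ^ 2 - 1) ≠ 0 := by
  have := den_ne (a := (a : ℤ)) (by omega)
  exact_mod_cast this

theorem WM_int (z : ℤ) : (z : A) = qc A (z : ℚ) := by
  rw [qc]
  simp

theorem WM_z (hBI : BI_stmt) {a : ℕ} {e : A} (ha : 11 ≤ a) (r : Rt (a ^ 2 - 1) e) (Q : Pt) (k : ℕ) :
    qc A (2 - mu a Q) * coeff k (r.z (ka a Q)) =
      -((k : A) + 1) * coeff (k + 1) (bs r (ka a Q)) +
      e * (coeff (k + 1) (bs r (ka a Q + ((a ^ 2 - 1 : ℕ) : ℤ))) -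
        coeff (k + 1) (bs r (ka a Q))) := by
  have h1 : 1 ≤ a ^ 2 - 1 := by
    have : 11 ^ 2 ≤ a ^ 2 := Nat.pow_le_pow_left ha 2
    omega
  have hne := WM_ne ha
  have h2 := (hBI A (a ^ 2 - 1) e r h1 (ka a Q) k).1
  have h3 : (((2 * ((a ^ 2 - 1 : ℕ) : ℤ) - ka a Q : ℤ)) : A) =
      ((a ^ 2 - 1 : ℕ) : A) * qc A (2 - mu a Q) := by
    rw [WM_int, ← qc_nat (A := A), ← qc_mul]
    congr 1
    rw [mu, ka]
    push_cast [WM_m ha]
    field_simp
  have h4 := qc_inv (A := A) (n := a ^ 2 - 1) (by omega)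
  rw [h3] at h2
  set c := qc A (((a ^ 2 - 1 : ℕ) : ℚ)⁻¹) with hc
  set m := ((a ^ 2 - 1 : ℕ) : A) with hm
  set Z := coeff k (r.z (ka a Q)) with hZ
  set b := coeff (k + 1) (bs r (ka a Q)) with hb
  set b1 := coeff (k + 1) (bs r (ka a Q + ((a ^ 2 - 1 : ℕ) : ℤ))) with hb1
  linear_combination c * h2 - (qc A (2 - mu a Q) * Z + ((k : A) + 1) * b - e * (b1 - b)) * h4

theorem WM_z' (hBI : BI_stmt) {a : ℕ} {e : A} (ha : 11 ≤ a) (r : Rt (a ^ 2 - 1) (1 + 2 * e)) (Q : Pt)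
    (k : ℕ) :
    qc A (1 - nu a Q) * coeff k (r.z (kb a Q)) =
      -((k : A) + 1) * coeff (k + 1) (bs r (kb a Q)) +
      e * (coeff (k + 1) (bs r (kb a Q + 2 * ((a ^ 2 - 1 : ℕ) : ℤ))) -
        coeff (k + 1) (bs r (kb a Q))) := by
  have h1 : 1 ≤ a ^ 2 - 1 := by
    have : 11 ^ 2 ≤ a ^ 2 := Nat.pow_le_pow_left ha 2
    omega
  have hne := WM_ne ha
  have h2 := (hBI A (a ^ 2 - 1) (1 + 2 * e) r h1 (kb a Q) k).2
  have h3 : (((((a ^ 2 - 1 : ℕ) : ℤ) - kb a Q : ℤ)) : A) =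
      ((a ^ 2 - 1 : ℕ) : A) * qc A (1 - nu a Q) := by
    rw [WM_int, ← qc_nat (A := A), ← qc_mul]
    congr 1
    rw [nu, kb]
    push_cast [WM_m ha]
    field_simp
  have h4 := qc_inv (A := A) (n := a ^ 2 - 1) (by omega)
  have h5 : qc A (1 / 2) * (1 + 2 * e - 1) = e := by
    have h6 : qc A (1 / 2) * (2 : A) = 1 := by
      have h7 : (2 : A) = qc A (2 : ℚ) := by
        have := qc_nat (A := A) 2
        simpa using this.symm
      rw [h7, ← qc_mul]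
      norm_num [qc_one]
    linear_combination e * h6
  rw [h3, h5] at h2
  set c := qc A (((a ^ 2 - 1 : ℕ) : ℚ)⁻¹) with hc
  set m := ((a ^ 2 - 1 : ℕ) : A) with hm
  set Z := coeff k (r.z (kb a Q)) with hZ
  set b := coeff (k + 1) (bs r (kb a Q)) with hb
  set b1 := coeff (k + 1) (bs r (kb a Q + 2 * ((a ^ 2 - 1 : ℕ) : ℤ))) with hb1
  linear_combination c * h2 - (qc A (1 - nu a Q) * Z + ((k : A) + 1) * b - e * (b1 - b)) * h4

end

theorem WM (hX : MXY_stmt) (hBI : BI_stmt) (hPTS : PTS_stmt) : WM_stmt := by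
  intro A _ _ a dl e ha hdl r r' i k
  have ha2 : 2 ≤ a := by omega
  have haZ : (11 : ℤ) ≤ a := by exact_mod_cast ha
  have hd0 : (0 : ℤ) ≤ dl := by positivity
  have hd1 : (dl : ℤ) ≤ 1 := by exact_mod_cast hdl
  have hne := WM_ne ha
  rcases i with _ | u | u
  · show MM (pT A a) (gT e (1 + 2 * e)) 1 (fun t => den A a * fx A a 1 0 t) k =
      1 * (if k = 0 then a * coeff 1 (bs r 0) + coeff 1 (bs r' 0) else 0)
    have h3 := (hX A a e (1 + 2 * e) ha2 r r' 1 0 k).1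
    have e1 : ((a : ℤ) * (((1 : ℕ) : ℤ) - 1) - ((0 : ℕ) : ℤ)) = 0 := by simp
    have e2 : ((a : ℤ) * ((0 : ℕ) : ℤ) - (((1 : ℕ) : ℤ) - 1)) = 0 := by simp
    rw [e1, e2, r.zero, r'.zero] at h3
    rw [h3, one_mul, PowerSeries.coeff_one]
    split_ifs with hk
    · subst hk
      ring
    · ring
  · show MM (pT A a) (gT e (1 + 2 * e)) 1
      (fun t => den A a * TA A a (shift a u.1.1 u.1.2) t) k =
      1 * wA a r r' (shift a u.1.1 u.1.2) k
    obtain ⟨p1, p2, p3, -⟩ := (hPTS a dl haZ hd0 hd1).1 u.1 u.2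
    set Q := shift (a : ℤ) u.1.1 u.1.2 with hQ
    rw [one_mul]
    unfold wA
    by_cases c1 : 1 ≤ Q.1 ∧ 1 ≤ Q.2
    · have hT : (fun t => den A a * TA A a Q t) = fun t => den A a *
          fc A a ((a : ℚ) / ((a : ℚ) ^ 2 - 1)) (-1 / ((a : ℚ) ^ 2 - 1)) Q t := by
        funext t
        rw [TA, if_pos c1]
      rw [hT, WM_fc hX ha2 r r' _ _ Q c1.1 c1.2, if_pos c1, if_pos c1]
      have s1 : (a : ℚ) * ((a : ℚ) / ((a : ℚ) ^ 2 - 1)) + -1 / ((a : ℚ) ^ 2 - 1) = 1 := by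
        field_simp
        ring
      have s2 : ((a : ℚ) / ((a : ℚ) ^ 2 - 1)) + (a : ℚ) * (-1 / ((a : ℚ) ^ 2 - 1)) = 0 := by
        field_simp
        ring
      rw [s1, s2, qc_one]
      simp [qc]
    · by_cases c2 : 1 ≤ Q.2
      · have hQ1 : Q.1 = 0 := by omega
        have hT : (fun t => den A a * TA A a Q t) = fun t => den A a *
            fx A a Q.1.toNat (Q.2 - 1).toNat t := by
          funext t
          rw [TA, if_neg c1, if_pos c2, hQ1]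
          rfl
        rw [hT, WM_fx hX ha2 r r' Q (by omega) c2, if_neg c1, if_neg c1, if_pos c2, if_pos c2,
          one_mul]
      · have hQ2 : Q.2 = 0 := by omega
        have hT : (fun t => den A a * TA A a Q t) = fun t => den A a *
            fy A a (Q.1 - 1).toNat Q.2.toNat t := by
          funext t
          rw [TA, if_neg c1, if_neg c2, hQ2]
          rfl
        rw [hT, WM_fy hX ha2 r r' Q (by omega) (by omega), if_neg c1, if_neg c1, if_neg c2,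
          if_neg c2, one_mul]
  · show MM (pT A a) (gT e (1 + 2 * e)) 1
      (fun t => den A a * TB A a (shift a u.1.1 u.1.2) t) k =
      e * wB a r r' (shift a u.1.1 u.1.2) k
    obtain ⟨p1, p2, -⟩ := (hPTS a dl haZ hd0 hd1).2 u.1 u.2
    set Q := shift (a : ℤ) u.1.1 u.1.2 with hQ
    have hT : (fun t => den A a * TB A a Q t) = fun t => den A a *
        fc A a (((a : ℚ) * (1 - nu a Q) + (2 - mu a Q)) / ((a : ℚ) ^ 2 - 1))
          ((-(1 - nu a Q) - (a : ℚ) * (2 - mu a Q)) / ((a : ℚ) ^ 2 - 1)) Q t := rfl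
    rw [hT, WM_fc hX ha2 r r' _ _ Q p1 p2]
    have s1 : (a : ℚ) * (((a : ℚ) * (1 - nu a Q) + (2 - mu a Q)) / ((a : ℚ) ^ 2 - 1)) +
        ((-(1 - nu a Q) - (a : ℚ) * (2 - mu a Q)) / ((a : ℚ) ^ 2 - 1)) = 1 - nu a Q := by
      field_simp
      ring
    have s2 : (((a : ℚ) * (1 - nu a Q) + (2 - mu a Q)) / ((a : ℚ) ^ 2 - 1)) +
        (a : ℚ) * ((-(1 - nu a Q) - (a : ℚ) * (2 - mu a Q)) / ((a : ℚ) ^ 2 - 1)) =
        -(2 - mu a Q) := by
      field_simp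
      ring
    have s3 : qc A (-(2 - mu a Q)) = -qc A (2 - mu a Q) := map_neg _ _
    rw [s1, s2, s3]
    have z1 := WM_z hBI ha r Q k
    have z2 := WM_z' hBI ha r' Q k
    unfold wB
    linear_combination (coeff (k + 1) (bs r (ka a Q))) * z2 -
      (coeff (k + 1) (bs r' (kb a Q))) * z1

end Pool.Agent.LK
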